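import Mathlib
import Pool.Agent.Lib.H73TR.Fin

/-!
# Kronecker polytopes: triples in which one of the partitions has at most two rows

`H73TR.kron k lam mu nu` is the Kronecker coefficient of three partitions of `k` with at most `l`
rows (characters by the determinantal formula), `H73TR.StretchedPositive a b c` is stretched
positivity of a triple of vectors, `H73TR.twoRow l t (1 - t)` is the vector `(t, 1 - t, 0, …, 0)`,
`H73TR.Slice a b s` is the polytope `P(s)` of the real solutions `x` of an explicit system of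
linear inequalities (rows `ρ : H73TR.Row l`, the row `ρ` says `0 ≤ ρ.gap a b s x`), and `ρ.lin` is
the linear part (in `x`) of the row `ρ`.

For every number `l` of parts and all `a, b` with `l` parts, the `t ≥ 1/2` for which
`(a, b, (t, 1 - t, 0, …, 0))` is stretched-positive are described by two rational numbers `τ ≤ T`,
each of them the largest `s` for which some explicit system of linear inequalities of polynomial
size has a solution: `T` is the largest `s` with `P(s)` nonempty, and `τ` is the largest `s` such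
that `P(s)` contains a translate of `P(1/2)`.
-/

namespace Pool.Agent.Results.MP_1f3a98_lc.TwoRow

open H73TR

/-- Let `l ≥ 2` and let `a, b` be rational distributions with `l` parts.  If the polytope
`P(1/2)` is empty, then no triple `(a, b, (t, 1 - t, 0, …, 0))`, `t ≥ 1/2`, is stretched-positive.
Otherwise let `T` be the largest `s` with `P(s)` nonempty, and `τ` the largest `s` such that `P(s)`
contains a translate of `P(1/2)`, that is, the largest `s` for which the linear system
`h ρ + ρ.lin w ≤ ρ.gap a b s 0` (all rows `ρ`) has a solution `w`, where `h ρ` is the maximum of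
`ρ.lin` on `P(1/2)`.  These exist and are rational, `1/2 ≤ τ ≤ T ≤ 1`; the triple is not
stretched-positive for `t > T`, it is stretched-positive for `t = T` and for a dense set of `t` in
`[τ, T]`; and for `1/2 ≤ t < τ` the Kronecker coefficient of `k a, k b, k (t, 1 - t, 0, …, 0)` is
`0` for all large `k`; for rational `s` in `[1/2, τ]` the polytope `P(s)` is a translate of
`P(1/2)`. -/
theorem result {l : ℕ} (hl : 2 ≤ l) {a b : Fin l → ℚ} (ha : IsDistribution a)
    (hb : IsDistribution b) :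
    ((Slice a b (1 / 2)) = ∅ →
      ∀ t : ℚ, 1 / 2 ≤ t → ¬ StretchedPositive a b (twoRow l t (1 - t))) ∧
    ((Slice a b (1 / 2)).Nonempty → ∃ (τ T : ℚ) (h : Row l → ℚ), 1 / 2 ≤ τ ∧ τ ≤ T ∧ T ≤ 1 ∧
      IsGreatest {s : ℝ | (Slice a b s).Nonempty} (T : ℝ) ∧
      IsGreatest {s : ℝ | ∃ w, ∀ x ∈ Slice a b (1 / 2), x + w ∈ Slice a b s} (τ : ℝ) ∧
      (∀ ρ : Row l, IsGreatest (ρ.lin '' Slice a b (1 / 2)) (h ρ : ℝ)) ∧
      IsGreatest {s : ℝ | ∃ w : Fin l → Fin l → ℝ, ∀ ρ : Row l, (h ρ : ℝ) + ρ.lin w ≤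
        ρ.gap (fun i => (a i : ℝ)) (fun i => (b i : ℝ)) s (fun _ _ => 0)} (τ : ℝ) ∧
      (∀ s : ℚ, 1 / 2 ≤ s → s ≤ τ →
        ∃ w, Slice a b (s : ℝ) = (fun x => x + w) '' Slice a b (1 / 2)) ∧
      (∀ t : ℚ, T < t → ¬ StretchedPositive a b (twoRow l t (1 - t))) ∧
      StretchedPositive a b (twoRow l T (1 - T)) ∧
      (∀ t : ℚ, 1 / 2 ≤ t → t < τ → ∃ K : ℕ, ∀ k : ℕ, K ≤ k → ∀ lam mu nu : Fin l → ℕ,
        (∀ i, (lam i : ℚ) = k * a i) → (∀ i, (mu i : ℚ) = k * b i) →
        (∀ i, (nu i : ℚ) = k * twoRow l t (1 - t) i) → kron k lam mu nu = 0) ∧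
      ∀ s₀ s₁ : ℚ, τ ≤ s₀ → s₀ < s₁ → s₁ ≤ T →
        ∃ t : ℚ, s₀ ≤ t ∧ t ≤ s₁ ∧ StretchedPositive a b (twoRow l t (1 - t))) :=
  two_row hl ha hb

end Pool.Agent.Results.MP_1f3a98_lc.TwoRow
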